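import Pool.Agent.W648.UN.Stm2

/-!
# Landsberg unicorn (MP_9f67e3_gt): the `y`-derivatives of the spray at a fixed point (part S_GY)
-/

set_option autoImplicit false

open MeasureTheory Set Filter Topology
open scoped ContDiff

namespace Pool.Agent.W108.UN

open Pool.Agent.W648.UN

lemma dot_p_sol2 {p q : Fin 2 → ℝ} (h : det2 p q ≠ 0) (a b : ℝ) : dot p (sol2 p q a b) = a := by
  unfold dot sol2
  simp only [Matrix.cons_val_zero, Matrix.cons_val_one]
  rw [mul_div_assoc', mul_div_assoc', ← add_div, div_eq_iff h]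
  unfold det2
  ring

lemma dot_q_sol2 {p q : Fin 2 → ℝ} (h : det2 p q ≠ 0) (a b : ℝ) : dot q (sol2 p q a b) = b := by
  unfold dot sol2
  simp only [Matrix.cons_val_zero, Matrix.cons_val_one]
  rw [mul_div_assoc', mul_div_assoc', ← add_div, div_eq_iff h]
  unfold det2
  ring

lemma sol2_uniq {p q X : Fin 2 → ℝ} (h : det2 p q ≠ 0) : X = sol2 p q (dot p X) (dot q X) := by
  funext i
  fin_cases i
  · change X 0 = (dot p X * q 1 - dot q X * p 1) / det2 p q
    rw [eq_div_iff h]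
    unfold dot det2
    ring
  · change X 1 = (dot q X * p 0 - dot p X * q 0) / det2 p q
    rw [eq_div_iff h]
    unfold dot det2
    ring

lemma dot_single (a : Fin 2 → ℝ) (j : Fin 2) : dot a (Pi.single j (1 : ℝ) : Fin 2 → ℝ) = a j := by
  fin_cases j <;> simp [dot]

section

variable {p q : ℝ → Fin 2 → ℝ} {m1 : ℝ → ℝ} {V : Set (Fin 2 → ℝ)} {Θ : (Fin 2 → ℝ) → ℝ}

lemma line_at (y v : Fin 2 → ℝ) (f : (Fin 2 → ℝ) → ℝ) (hf : DifferentiableAt ℝ f y) :
    HasDerivAt (fun t : ℝ => f (y + t • v)) (fderiv ℝ f y v) 0 :=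
  hf.hasFDerivAt.hasLineDerivAt v

lemma line_ev (hV : IsOpen V) {y : Fin 2 → ℝ} (hy : y ∈ V) (v : Fin 2 → ℝ) :
    ∀ᶠ t : ℝ in 𝓝 0, y + t • v ∈ V := by
  have h1 : ContinuousAt (fun t : ℝ => y + t • v) 0 := by fun_prop
  have h2 : V ∈ 𝓝 ((fun t : ℝ => y + t • v) 0) := by
    simp only [zero_smul, add_zero]
    exact hV.mem_nhds hy
  exact h1 h2

lemma coord_at (y v : Fin 2 → ℝ) (i : Fin 2) :
    HasDerivAt (fun t : ℝ => (y + t • v) i) (v i) 0 := by
  simp only [Pi.add_apply, Pi.smul_apply, smul_eq_mul]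
  simpa using ((hasDerivAt_id (0 : ℝ)).mul_const (v i)).const_add (y i)

/-- derivative of the parameter -/
lemma theta_at (hV : IsOpen V)
    (hq : ∀ θ i, HasDerivAt (fun θ => q θ i) (- p θ i - m1 θ * q θ i) θ)
    (hΘ : ∀ y ∈ V, DifferentiableAt ℝ Θ y)
    (h0 : ∀ y ∈ V, dot (q (Θ y)) y = 0) (hF : ∀ y ∈ V, 0 < dot (p (Θ y)) y)
    {y : Fin 2 → ℝ} (hy : y ∈ V) (v : Fin 2 → ℝ) :
    HasDerivAt (fun t : ℝ => Θ (y + t • v)) (dot (q (Θ y)) v / dot (p (Θ y)) y) 0 := by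
  have h1 := line_at y v Θ (hΘ y hy)
  set θ' := fderiv ℝ Θ y v with hθ'
  have h2 : ∀ i, HasDerivAt (fun t : ℝ => q (Θ (y + t • v)) i)
      ((- p (Θ y) i - m1 (Θ y) * q (Θ y) i) * θ') 0 := by
    intro i
    have h3 : HasDerivAt (fun θ => q θ i) (- p (Θ y) i - m1 (Θ y) * q (Θ y) i)
        ((fun t : ℝ => Θ (y + t • v)) 0) := by
      simpa using hq (Θ y) i
    exact h3.comp 0 h1
  have h4 : HasDerivAt (fun t : ℝ => dot (q (Θ (y + t • v))) (y + t • v)) _ 0 :=
    ((h2 0).mul (coord_at y v 0)).add ((h2 1).mul (coord_at y v 1))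
  have h5 : HasDerivAt (fun t : ℝ => dot (q (Θ (y + t • v))) (y + t • v)) 0 0 := by
    refine (hasDerivAt_const (0 : ℝ) (0 : ℝ)).congr_of_eventuallyEq ?_
    filter_upwards [line_ev hV hy v] with t ht
    exact h0 _ ht
  have h6 := h4.unique h5
  simp only [zero_smul, add_zero] at h6
  have h7 := h0 y hy
  have h8 := hF y hy
  have h9 : θ' = dot (q (Θ y)) v / dot (p (Θ y)) y := by
    rw [eq_div_iff h8.ne']
    unfold dot at h7 ⊢
    linear_combination -h6 - m1 (Θ y) * θ' * h7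
  rw [← h9]
  exact h1

lemma pTheta_diff (hp : ∀ θ i, HasDerivAt (fun θ => p θ i) (q θ i) θ) {y : Fin 2 → ℝ}
    (hΘ : DifferentiableAt ℝ Θ y) (i : Fin 2) : DifferentiableAt ℝ (fun u => p (Θ u) i) y :=
  DifferentiableAt.comp (g := fun θ => p θ i) y (hp (Θ y) i).differentiableAt hΘ

lemma qTheta_diff (hq : ∀ θ i, HasDerivAt (fun θ => q θ i) (- p θ i - m1 θ * q θ i) θ)
    {y : Fin 2 → ℝ} (hΘ : DifferentiableAt ℝ Θ y) (i : Fin 2) :
    DifferentiableAt ℝ (fun u => q (Θ u) i) y :=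
  DifferentiableAt.comp (g := fun θ => q θ i) y (hq (Θ y) i).differentiableAt hΘ

/-- one differentiation of the system `p · X = a`, `q · X = b` -/
lemma stage (hV : IsOpen V)
    (hp : ∀ θ i, HasDerivAt (fun θ => p θ i) (q θ i) θ)
    (hq : ∀ θ i, HasDerivAt (fun θ => q θ i) (- p θ i - m1 θ * q θ i) θ)
    (hdet : ∀ θ, det2 (p θ) (q θ) ≠ 0)
    (hΘ : ∀ y ∈ V, DifferentiableAt ℝ Θ y)
    (h0 : ∀ y ∈ V, dot (q (Θ y)) y = 0) (hF : ∀ y ∈ V, 0 < dot (p (Θ y)) y)
    (X : (Fin 2 → ℝ) → Fin 2 → ℝ) (a b : (Fin 2 → ℝ) → ℝ)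
    (hX : ∀ y ∈ V, X y = sol2 (p (Θ y)) (q (Θ y)) (a y) (b y))
    {y : Fin 2 → ℝ} (hy : y ∈ V) (ha : DifferentiableAt ℝ a y) (hb : DifferentiableAt ℝ b y)
    (v : Fin 2 → ℝ) (a' b' : ℝ) (ha' : HasDerivAt (fun t : ℝ => a (y + t • v)) a' 0)
    (hb' : HasDerivAt (fun t : ℝ => b (y + t • v)) b' 0) (i : Fin 2) :
    fderiv ℝ (fun u => X u i) y v = sol2 (p (Θ y)) (q (Θ y))
      (a' - dot (q (Θ y)) v / dot (p (Θ y)) y * b y)
      (b' + dot (q (Θ y)) v / dot (p (Θ y)) y * (a y + m1 (Θ y) * b y)) i := by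
  have hd : ∀ i, DifferentiableAt ℝ (fun u => X u i) y := by
    intro i
    have h1 : (fun u => X u i) =ᶠ[𝓝 y] fun u => sol2 (p (Θ u)) (q (Θ u)) (a u) (b u) i := by
      filter_upwards [hV.mem_nhds hy] with u hu
      rw [hX u hu]
    refine DifferentiableAt.congr_of_eventuallyEq ?_ h1
    have p0 := pTheta_diff hp (hΘ y hy) 0
    have p1 := pTheta_diff hp (hΘ y hy) 1
    have q0 := qTheta_diff hq (hΘ y hy) 0
    have q1 := qTheta_diff hq (hΘ y hy) 1
    have hdt : DifferentiableAt ℝ (fun u => det2 (p (Θ u)) (q (Θ u))) y :=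
      (p0.mul q1).sub (p1.mul q0)
    have hdi : DifferentiableAt ℝ (fun u => (det2 (p (Θ u)) (q (Θ u)))⁻¹) y := hdt.inv (hdet _)
    have r0 : DifferentiableAt ℝ (fun u => (a u * q (Θ u) 1 - b u * p (Θ u) 1) /
        det2 (p (Θ u)) (q (Θ u))) y := by
      simp only [div_eq_mul_inv]
      exact ((ha.mul q1).sub (hb.mul p1)).mul hdi
    have r1 : DifferentiableAt ℝ (fun u => (b u * p (Θ u) 0 - a u * q (Θ u) 0) /
        det2 (p (Θ u)) (q (Θ u))) y := by
      simp only [div_eq_mul_inv]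
      exact ((hb.mul p0).sub (ha.mul q0)).mul hdi
    fin_cases i
    · exact r0
    · exact r1
  have hθ := theta_at hV hq hΘ h0 hF hy v
  set θ' := dot (q (Θ y)) v / dot (p (Θ y)) y with hθ'
  have hpl : ∀ i, HasDerivAt (fun t : ℝ => p (Θ (y + t • v)) i) (q (Θ y) i * θ') 0 := by
    intro i
    have h3 : HasDerivAt (fun θ => p θ i) (q (Θ y) i) ((fun t : ℝ => Θ (y + t • v)) 0) := by
      simpa using hp (Θ y) i
    exact h3.comp 0 hθ
  have hql : ∀ i, HasDerivAt (fun t : ℝ => q (Θ (y + t • v)) i)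
      ((- p (Θ y) i - m1 (Θ y) * q (Θ y) i) * θ') 0 := by
    intro i
    have h3 : HasDerivAt (fun θ => q θ i) (- p (Θ y) i - m1 (Θ y) * q (Θ y) i)
        ((fun t : ℝ => Θ (y + t • v)) 0) := by
      simpa using hq (Θ y) i
    exact h3.comp 0 hθ
  have hXl : ∀ i, HasDerivAt (fun t : ℝ => X (y + t • v) i) (fderiv ℝ (fun u => X u i) y v) 0 :=
    fun i => line_at y v (fun u => X u i) (hd i)
  have e1 : HasDerivAt (fun t : ℝ => dot (p (Θ (y + t • v))) (X (y + t • v))) _ 0 :=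
    ((hpl 0).mul (hXl 0)).add ((hpl 1).mul (hXl 1))
  have e2 : HasDerivAt (fun t : ℝ => dot (q (Θ (y + t • v))) (X (y + t • v))) _ 0 :=
    ((hql 0).mul (hXl 0)).add ((hql 1).mul (hXl 1))
  have e1' : HasDerivAt (fun t : ℝ => dot (p (Θ (y + t • v))) (X (y + t • v))) a' 0 := by
    refine ha'.congr_of_eventuallyEq ?_
    filter_upwards [line_ev hV hy v] with t ht
    rw [hX _ ht, dot_p_sol2 (hdet _)]
  have e2' : HasDerivAt (fun t : ℝ => dot (q (Θ (y + t • v))) (X (y + t • v))) b' 0 := by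
    refine hb'.congr_of_eventuallyEq ?_
    filter_upwards [line_ev hV hy v] with t ht
    rw [hX _ ht, dot_q_sol2 (hdet _)]
  have f1 := e1.unique e1'
  have f2 := e2.unique e2'
  simp only [zero_smul, add_zero] at f1 f2
  have g1 : dot (p (Θ y)) (X y) = a y := by rw [hX _ hy, dot_p_sol2 (hdet _)]
  have g2 : dot (q (Θ y)) (X y) = b y := by rw [hX _ hy, dot_q_sol2 (hdet _)]
  have k1 : dot (p (Θ y)) (fun i => fderiv ℝ (fun u => X u i) y v) = a' - θ' * b y := by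
    unfold dot at g2 ⊢
    linear_combination f1 - θ' * g2
  have k2 : dot (q (Θ y)) (fun i => fderiv ℝ (fun u => X u i) y v) =
      b' + θ' * (a y + m1 (Θ y) * b y) := by
    unfold dot at g1 g2 ⊢
    linear_combination f2 + θ' * g1 + θ' * m1 (Θ y) * g2
  have := congrFun (sol2_uniq (X := fun i => fderiv ℝ (fun u => X u i) y v) (hdet (Θ y))) i
  rw [k1, k2] at this
  exact this

end

theorem th : S_GY := by
  intro p q A B m1 m2 V Θ G hV cp cq cA cB hp hq hA hB sA sB hdet cΘ h0 hF hG y hy j k l D3 hD3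
  have hΘ : ∀ y ∈ V, DifferentiableAt ℝ Θ y := fun y hy =>
    (cΘ.contDiffAt (hV.mem_nhds hy)).differentiableAt (by simp)
  have hAΘ : ∀ y ∈ V, ∀ i j, DifferentiableAt ℝ (fun u => A (Θ u) i j) y := fun y hy i j =>
    DifferentiableAt.comp (g := fun θ => A θ i j) y (hA (Θ y) i j).differentiableAt (hΘ y hy)
  have hBΘ : ∀ y ∈ V, ∀ i j, DifferentiableAt ℝ (fun u => B (Θ u) i j) y := fun y hy i j =>
    DifferentiableAt.comp (g := fun θ => B θ i j) y (hB (Θ y) i j).differentiableAt (hΘ y hy)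
  have hcoord : ∀ (y : Fin 2 → ℝ) (i : Fin 2), DifferentiableAt ℝ (fun u : Fin 2 → ℝ => u i) y :=
    fun y i => by fun_prop
  have hAl : ∀ y ∈ V, ∀ (v : Fin 2 → ℝ) i j, HasDerivAt (fun t : ℝ => A (Θ (y + t • v)) i j)
      (B (Θ y) i j * (dot (q (Θ y)) v / dot (p (Θ y)) y)) 0 := by
    intro y hy v i j
    have h3 : HasDerivAt (fun θ => A θ i j) (B (Θ y) i j) ((fun t : ℝ => Θ (y + t • v)) 0) := by
      simpa using hA (Θ y) i j
    exact h3.comp 0 (theta_at hV hq hΘ h0 hF hy v)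
  have hBl : ∀ y ∈ V, ∀ (v : Fin 2 → ℝ) i j, HasDerivAt (fun t : ℝ => B (Θ (y + t • v)) i j)
      ((- A (Θ y) i j - m1 (Θ y) * B (Θ y) i j - m2 (Θ y) * q (Θ y) i * q (Θ y) j) *
        (dot (q (Θ y)) v / dot (p (Θ y)) y)) 0 := by
    intro y hy v i j
    have h3 : HasDerivAt (fun θ => B θ i j)
        (- A (Θ y) i j - m1 (Θ y) * B (Θ y) i j - m2 (Θ y) * q (Θ y) i * q (Θ y) j)
        ((fun t : ℝ => Θ (y + t • v)) 0) := by
      simpa using hB (Θ y) i j
    exact h3.comp 0 (theta_at hV hq hΘ h0 hF hy v)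
  -- stage one
  have s1 : ∀ y ∈ V, ∀ i, fderiv ℝ (fun u => G u i) y (Pi.single l (1 : ℝ) : Fin 2 → ℝ) =
      sol2 (p (Θ y)) (q (Θ y)) (dot (A (Θ y) l) y) (dot (B (Θ y) l) y) i := by
    intro y hy i
    set v : Fin 2 → ℝ := (Pi.single l (1 : ℝ) : Fin 2 → ℝ) with hv
    have hA' := hAl y hy v
    have hB' := hBl y hy v
    have c0 := coord_at y v 0
    have c1 := coord_at y v 1
    have da : DifferentiableAt ℝ (fun u => (1 / 2) * quad (A (Θ u)) u) y := by
      unfold quad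
      have := hAΘ y hy
      have u0 := hcoord y 0
      have u1 := hcoord y 1
      exact (((((this 0 0).mul u0).mul u0).add (((this 0 1).mul u0).mul u1)).add
        (((this 1 0).mul u1).mul u0)).add (((this 1 1).mul u1).mul u1) |>.const_mul (1 / 2)
    have db : DifferentiableAt ℝ (fun u => (1 / 2) * quad (B (Θ u)) u) y := by
      unfold quad
      have := hBΘ y hy
      have u0 := hcoord y 0
      have u1 := hcoord y 1
      exact (((((this 0 0).mul u0).mul u0).add (((this 0 1).mul u0).mul u1)).add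
        (((this 1 0).mul u1).mul u0)).add (((this 1 1).mul u1).mul u1) |>.const_mul (1 / 2)
    have la : HasDerivAt (fun t : ℝ => (1 / 2) * quad (A (Θ (y + t • v))) (y + t • v)) _ 0 :=
      (((((hA' 0 0).mul c0).mul c0).add (((hA' 0 1).mul c0).mul c1)).add
        (((hA' 1 0).mul c1).mul c0)).add (((hA' 1 1).mul c1).mul c1) |>.const_mul (1 / 2)
    have lb : HasDerivAt (fun t : ℝ => (1 / 2) * quad (B (Θ (y + t • v))) (y + t • v)) _ 0 :=
      (((((hB' 0 0).mul c0).mul c0).add (((hB' 0 1).mul c0).mul c1)).add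
        (((hB' 1 0).mul c1).mul c0)).add (((hB' 1 1).mul c1).mul c1) |>.const_mul (1 / 2)
    rw [stage hV hp hq hdet hΘ h0 hF G (fun u => (1 / 2) * quad (A (Θ u)) u)
      (fun u => (1 / 2) * quad (B (Θ u)) u) hG hy da db v _ _ la lb i]
    have hq0 := h0 y hy
    congr 1
    · simp only [zero_smul, add_zero, Pi.mul_apply]
      have e := sA (Θ y) 1 0
      have hdv : dot (A (Θ y) l) y = v 0 * (A (Θ y) 0 0 * y 0 + A (Θ y) 0 1 * y 1) +
          v 1 * (A (Θ y) 0 1 * y 0 + A (Θ y) 1 1 * y 1) := by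
        rw [hv]
        fin_cases l
        · simp [dot]
        · simp [dot, e]
      rw [hdv]
      unfold quad
      rw [e]
      ring
    · simp only [zero_smul, add_zero, Pi.mul_apply]
      have e := sB (Θ y) 1 0
      have e' := sA (Θ y) 1 0
      have hdv : dot (B (Θ y) l) y = v 0 * (B (Θ y) 0 0 * y 0 + B (Θ y) 0 1 * y 1) +
          v 1 * (B (Θ y) 0 1 * y 0 + B (Θ y) 1 1 * y 1) := by
        rw [hv]
        fin_cases l
        · simp [dot]
        · simp [dot, e]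
      rw [hdv]
      unfold quad
      rw [e, e']
      set θ' := dot (q (Θ y)) v / dot (p (Θ y)) y
      unfold dot at hq0
      linear_combination (-(1 / 2) * m2 (Θ y) * θ' * (q (Θ y) 0 * y 0 + q (Θ y) 1 * y 1)) * hq0
  -- stage two
  have s2 : ∀ y ∈ V, ∀ i, fderiv ℝ (fun w₁ => fderiv ℝ (fun u => G u i) w₁
        (Pi.single l (1 : ℝ) : Fin 2 → ℝ)) y (Pi.single k (1 : ℝ) : Fin 2 → ℝ) =
      sol2 (p (Θ y)) (q (Θ y)) (A (Θ y) l k) (B (Θ y) l k) i := by
    intro y hy i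
    set v : Fin 2 → ℝ := (Pi.single k (1 : ℝ) : Fin 2 → ℝ) with hv
    have hev : (fun w₁ => fderiv ℝ (fun u => G u i) w₁ (Pi.single l (1 : ℝ) : Fin 2 → ℝ)) =ᶠ[𝓝 y]
        fun w => (fun w => sol2 (p (Θ w)) (q (Θ w)) (dot (A (Θ w) l) w) (dot (B (Θ w) l) w)) w i := by
      filter_upwards [hV.mem_nhds hy] with w hw
      exact s1 w hw i
    rw [hev.fderiv_eq]
    have hA' := hAl y hy v
    have hB' := hBl y hy v
    have c0 := coord_at y v 0
    have c1 := coord_at y v 1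
    have da : DifferentiableAt ℝ (fun u => dot (A (Θ u) l) u) y := by
      unfold dot
      have := hAΘ y hy
      exact ((this l 0).mul (hcoord y 0)).add ((this l 1).mul (hcoord y 1))
    have db : DifferentiableAt ℝ (fun u => dot (B (Θ u) l) u) y := by
      unfold dot
      have := hBΘ y hy
      exact ((this l 0).mul (hcoord y 0)).add ((this l 1).mul (hcoord y 1))
    have la : HasDerivAt (fun t : ℝ => dot (A (Θ (y + t • v)) l) (y + t • v)) _ 0 :=
      ((hA' l 0).mul c0).add ((hA' l 1).mul c1)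
    have lb : HasDerivAt (fun t : ℝ => dot (B (Θ (y + t • v)) l) (y + t • v)) _ 0 :=
      ((hB' l 0).mul c0).add ((hB' l 1).mul c1)
    rw [stage hV hp hq hdet hΘ h0 hF _ (fun u => dot (A (Θ u) l) u)
      (fun u => dot (B (Θ u) l) u) (fun _ _ => rfl) hy da db v _ _ la lb i]
    have hq0 := h0 y hy
    congr 1
    · simp only [zero_smul, add_zero, Pi.mul_apply]
      have hdv : A (Θ y) l k = A (Θ y) l 0 * v 0 + A (Θ y) l 1 * v 1 := by
        rw [hv]
        fin_cases k <;> simp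
      rw [hdv]
      simp only [dot]
      ring
    · simp only [zero_smul, add_zero, Pi.mul_apply]
      have hdv : B (Θ y) l k = B (Θ y) l 0 * v 0 + B (Θ y) l 1 * v 1 := by
        rw [hv]
        fin_cases k <;> simp
      rw [hdv]
      set θ' := dot (q (Θ y)) v / dot (p (Θ y)) y
      unfold dot at hq0 ⊢
      linear_combination (- m2 (Θ y) * θ' * q (Θ y) l) * hq0
  -- stage three
  have s3 : ∀ i, D3 i = sol2 (p (Θ y)) (q (Θ y)) 0
      (- m2 (Θ y) * q (Θ y) j * q (Θ y) k * q (Θ y) l / dot (p (Θ y)) y) i := by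
    intro i
    rw [hD3 i]
    set v : Fin 2 → ℝ := (Pi.single j (1 : ℝ) : Fin 2 → ℝ) with hv
    have hev : (fun w₂ => fderiv ℝ (fun w₁ => fderiv ℝ (fun u => G u i) w₁
        (Pi.single l (1 : ℝ) : Fin 2 → ℝ)) w₂ (Pi.single k (1 : ℝ) : Fin 2 → ℝ)) =ᶠ[𝓝 y]
        fun w => (fun w => sol2 (p (Θ w)) (q (Θ w)) (A (Θ w) l k) (B (Θ w) l k)) w i := by
      filter_upwards [hV.mem_nhds hy] with w hw
      exact s2 w hw i
    rw [hev.fderiv_eq]
    have da : DifferentiableAt ℝ (fun u => A (Θ u) l k) y := hAΘ y hy l k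
    have db : DifferentiableAt ℝ (fun u => B (Θ u) l k) y := hBΘ y hy l k
    rw [stage hV hp hq hdet hΘ h0 hF _ (fun u => A (Θ u) l k)
      (fun u => B (Θ u) l k) (fun _ _ => rfl) hy da db v _ _ (hAl y hy v l k) (hBl y hy v l k) i]
    have hdv : dot (q (Θ y)) v = q (Θ y) j := dot_single _ _
    rw [hdv]
    congr 1
    · ring
    · ring
  have s4 : D3 = sol2 (p (Θ y)) (q (Θ y)) 0
      (- m2 (Θ y) * q (Θ y) j * q (Θ y) k * q (Θ y) l / dot (p (Θ y)) y) := funext s3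
  rw [s4]
  exact ⟨dot_p_sol2 (hdet _) _ _, dot_q_sol2 (hdet _) _ _⟩

end Pool.Agent.W108.UN
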